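import Pool.Agent.W763.PB.Stm

set_option autoImplicit false
set_option linter.unusedSectionVars false
open MeasureTheory Filter Topology
open scoped InnerProductSpace BoundedContinuousFunction

namespace Pool.Agent.W54.PB

open Pool.Agent.W763.PB

/-- Y2: power bound in the limit. -/
theorem y2 : S_L3 → S_EST → S_Y2 := by
  intro hL3 hEST k b H _ _ _ U D J E _ _ _ i UE DE hS n v
  have hk := hS.hk
  have hb := hS.hb
  obtain ⟨-, -, -, hproj, -⟩ := hL3 H J E i hS.iJ hS.dense
  have hest := hEST k b hk hb H U D J hS.lev hS.step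
  have h1 : Tendsto (fun m => ‖DE (i m ((U m ^ n)
      (ContinuousLinearMap.adjoint (i m).toContinuousLinearMap v)))‖) atTop (𝓝 ‖DE ((UE ^ n) v)‖) :=
    ((DE.continuous.tendsto _).comp (hS.ul n v)).norm
  have h2 : Tendsto (fun m => 5 * ‖DE (i m (ContinuousLinearMap.adjoint (i m).toContinuousLinearMap v))‖)
      atTop (𝓝 (5 * ‖DE v‖)) :=
    (((DE.continuous.tendsto _).comp (hproj v)).norm).const_mul 5
  have hb2 : 2 ≤ b := by
    have : (64 : ℝ) ≤ b := by nlinarith
    have h64 : 64 ≤ b := by exact_mod_cast this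
    omega
  refine le_of_tendsto_of_tendsto h1 h2 ?_
  filter_upwards [eventually_ge_atTop (n + 1)] with m hm
  obtain ⟨l, rfl⟩ : ∃ l, m = l + 1 := ⟨m - 1, by omega⟩
  have hnl : n < b ^ l :=
    lt_of_lt_of_le (Nat.lt_pow_self (by omega)) (Nat.pow_le_pow_right (by omega) (by omega))
  have h3 := hest l n hnl (ContinuousLinearMap.adjoint (i (l + 1)).toContinuousLinearMap v)
  rw [hS.di, hS.di, LinearIsometry.norm_map, LinearIsometry.norm_map]
  exact h3

end Pool.Agent.W54.PB
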